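import Pool.Agent.Helper13.HE.St

/-!
# Project HE (MP_a1f43d_co), module CAW: Caro-Wei
-/

set_option autoImplicit false

open Module Classical

open scoped LinearAlgebra.Projectivization

namespace Pool.Agent.Helper8.HE

open Pool.Agent.Helper13.HE Pool.Agent.Helper53.PB

universe u v

private lemma caw_one {α : Type v} (r : α → α → Prop) (hr : ∀ x y, r x y → r y x) (S : Finset α) :
    ∃ I ⊆ S, (∀ x ∈ I, ∀ y ∈ I, x ≠ y → ¬ r x y) ∧
      ∑ x ∈ S, (1 : ℚ) / (1 + ((S.filter (fun y => y ≠ x ∧ r x y)).card : ℚ)) ≤ I.card := by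
  induction S using Finset.strongInduction with
  | H S ih =>
    rcases S.eq_empty_or_nonempty with h | h
    · subst h
      refine ⟨∅, Finset.Subset.refl _, ?_, ?_⟩
      · intro x hx
        exact absurd hx (Finset.notMem_empty x)
      · simp
    · obtain ⟨x, hx, hmin⟩ := Finset.exists_min_image S
        (fun x => (S.filter (fun y => y ≠ x ∧ r x y)).card) h
      have hxF : x ∉ S.filter (fun y => y ≠ x ∧ r x y) := by
        intro h1
        exact (Finset.mem_filter.1 h1).2.1 rfl
      have hN : insert x (S.filter (fun y => y ≠ x ∧ r x y)) ⊆ S :=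
        Finset.insert_subset hx (Finset.filter_subset _ _)
      have hNc : (insert x (S.filter (fun y => y ≠ x ∧ r x y))).card =
          (S.filter (fun y => y ≠ x ∧ r x y)).card + 1 := Finset.card_insert_of_notMem hxF
      obtain ⟨N, hNdef⟩ : ∃ N, N = insert x (S.filter (fun y => y ≠ x ∧ r x y)) := ⟨_, rfl⟩
      rw [← hNdef] at hN hNc
      have hxN : x ∈ N := by rw [hNdef]; exact Finset.mem_insert_self _ _
      have hss : S \ N ⊂ S := by
        refine Finset.ssubset_iff_subset_ne.2 ⟨Finset.sdiff_subset, fun h1 => ?_⟩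
        rw [← h1] at hx
        exact (Finset.mem_sdiff.1 hx).2 hxN
      obtain ⟨I, hIS, hI, hIc⟩ := ih _ hss
      have hxI : x ∉ I := fun h1 => (Finset.mem_sdiff.1 (hIS h1)).2 hxN
      have hxr : ∀ y ∈ I, ¬ r x y := by
        intro y hy h1
        obtain ⟨h2, h3⟩ := Finset.mem_sdiff.1 (hIS hy)
        have h4 : y ≠ x := fun h5 => hxI (h5 ▸ hy)
        apply h3
        rw [hNdef]
        exact Finset.mem_insert_of_mem (Finset.mem_filter.2 ⟨h2, h4, h1⟩)
      refine ⟨insert x I, Finset.insert_subset hx (hIS.trans Finset.sdiff_subset), ?_, ?_⟩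
      · intro y hy z hz hyz
        rcases Finset.mem_insert.1 hy with h1 | h1
        · rcases Finset.mem_insert.1 hz with h2 | h2
          · exact absurd (h1.trans h2.symm) hyz
          · rw [h1]
            exact hxr z h2
        · rcases Finset.mem_insert.1 hz with h2 | h2
          · rw [h2]
            exact fun h3 => hxr y h1 (hr _ _ h3)
          · exact hI y h1 z h2 hyz
      · rw [Finset.card_insert_of_notMem hxI, ← Finset.sum_sdiff hN]
        push_cast
        refine add_le_add ?_ ?_
        · refine le_trans (Finset.sum_le_sum fun y hy => ?_) hIc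
          have h1 : (((S \ N).filter (fun z => z ≠ y ∧ r y z)).card : ℚ) ≤
              ((S.filter (fun z => z ≠ y ∧ r y z)).card : ℚ) := by
            exact_mod_cast Finset.card_le_card (Finset.filter_subset_filter _ Finset.sdiff_subset)
          have h2 : (0 : ℚ) ≤ (((S \ N).filter (fun z => z ≠ y ∧ r y z)).card : ℚ) := Nat.cast_nonneg _
          exact one_div_le_one_div_of_le (by linarith) (by linarith)
        · have h2 : (0 : ℚ) ≤ ((S.filter (fun y => y ≠ x ∧ r x y)).card : ℚ) := Nat.cast_nonneg _
          calc ∑ y ∈ N, (1 : ℚ) / (1 + ((S.filter (fun z => z ≠ y ∧ r y z)).card : ℚ))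
              ≤ ∑ y ∈ N, (1 : ℚ) / (1 + ((S.filter (fun y => y ≠ x ∧ r x y)).card : ℚ)) := by
                refine Finset.sum_le_sum fun y hy => ?_
                have h1 : ((S.filter (fun y => y ≠ x ∧ r x y)).card : ℚ) ≤
                    ((S.filter (fun z => z ≠ y ∧ r y z)).card : ℚ) := by
                  exact_mod_cast hmin y (hN hy)
                exact one_div_le_one_div_of_le (by linarith) (by linarith)
            _ = 1 := by
                rw [Finset.sum_const, nsmul_eq_mul, hNc]
                push_cast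
                rw [mul_one_div, div_eq_one_iff_eq (by linarith)]
                ring

theorem hCAW : StCAW.{v} := by
  intro α r hr S
  obtain ⟨I, hIS, hI, hIc⟩ := caw_one r hr S
  refine ⟨⟨I, hIS, hI, hIc⟩, fun Δ hΔ => ⟨I, hIS, hI, ?_⟩⟩
  have h1 : (S.card : ℚ) * (1 / (1 + (Δ : ℚ))) ≤ (I.card : ℚ) := by
    refine le_trans ?_ hIc
    rw [← nsmul_eq_mul, ← Finset.sum_const]
    refine Finset.sum_le_sum fun x hx => ?_
    have h2 : ((S.filter (fun y => y ≠ x ∧ r x y)).card : ℚ) ≤ (Δ : ℚ) := by
      exact_mod_cast hΔ x hx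
    have h3 : (0 : ℚ) ≤ ((S.filter (fun y => y ≠ x ∧ r x y)).card : ℚ) := Nat.cast_nonneg _
    exact one_div_le_one_div_of_le (by linarith) (by linarith)
  have h4 : (0 : ℚ) < 1 + (Δ : ℚ) := by positivity
  rw [mul_one_div, div_le_iff₀ h4] at h1
  have h5 : (S.card : ℚ) ≤ ((1 + Δ) * I.card : ℕ) := by
    push_cast
    linarith
  exact_mod_cast h5

end Pool.Agent.Helper8.HE
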